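import Pool.Agent.W587.MX.Stm

/-!
The unbounded case (`T10_LIMI`).
-/

set_option autoImplicit false

namespace Pool.Agent.W73.MX

open Pool.Agent.W587.MX
open Set Filter Topology Metric

theorem sp_z {f fs : ℂ → ℂ} {K : ℕ} {a0 : ℂ} {z w : Fin K → ℂ} (h : SP f fs K a0 z w)
    (i : Fin K) : f (z i) ≠ 0 ∧ z i * deriv f (z i) = a0 * f (z i) := by
  obtain ⟨_, _, Z, W, hZ, hW, _, _⟩ := h
  obtain ⟨⟨_, h1⟩, h2⟩ := hZ i
  have h3 := h1.self_of_nhds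
  rw [h2] at h3
  exact h3

theorem sp_w {f fs : ℂ → ℂ} {K : ℕ} {a0 : ℂ} {z w : Fin K → ℂ} (h : SP f fs K a0 z w)
    (i : Fin K) : fs (w i) ≠ 0 ∧ w i * deriv fs (w i) = a0 * fs (w i) := by
  obtain ⟨_, _, Z, W, hZ, hW, _, _⟩ := h
  obtain ⟨⟨_, h1⟩, h2⟩ := hW i
  have h3 := h1.self_of_nhds
  rw [h2] at h3
  exact h3

/-- limits of the points when the parameter is unbounded -/
theorem lim_zero (c2 : C2_LIM) {f : ℂ → ℂ} {l : Ultrafilter ℕ} {z a : ℕ → ℂ} {zs : ℂ}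
    (hf : Differentiable ℂ f) (hf0 : f 0 ≠ 0) (hz : Tendsto z l (𝓝 zs))
    (h : ∀ n, f (z n) ≠ 0 ∧ z n * deriv f (z n) = a n * f (z n))
    (ha : Tendsto (fun n => ‖a n‖) l atTop) : f zs = 0 := by
  by_contra h0
  have h1 := ((c2 f l z a zs hf hf0 hz h).1 h0).norm
  exact not_tendsto_atTop_of_tendsto_nhds h1 ha

theorem PB_mono {η η' : ℝ} (h : η ≤ η') : PB η ⊆ PB η' := fun _ hu => ⟨hu.1, hu.2.trans_le h⟩

theorem PB_sub (η : ℝ) : PB η ⊆ ball (0 : ℂ) η := fun _ hu => mem_ball_zero_iff.mpr hu.2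

theorem Sol_mono {f A g : ℂ → ℂ} {U V : Set ℂ} (h : U ⊆ V) (hs : Sol f A g V) : Sol f A g U :=
  fun u hu => hs u (h hu)

theorem limi (h5 : T5_BRI) (h8 : T8_STEP) (c1 : C1_CLS) (c2 : C2_LIM) : T10_LIMI := by
  intro f fs κ K l a z w hf hfs hf0 hfs0 hK hκ hmin hSP ha hzw
  have hz : ∀ i n, f (z n i) ≠ 0 ∧ z n i * deriv f (z n i) = a n * f (z n i) :=
    fun i n => sp_z (hSP n) i
  have hw : ∀ i n, fs (w n i) ≠ 0 ∧ w n i * deriv fs (w n i) = a n * fs (w n i) :=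
    fun i n => sp_w (hSP n) i
  -- the limits
  have hlim : ∀ i, ∃ zs ws : ℂ, zs ≠ 0 ∧ ws ≠ 0 ∧ Tendsto (fun n => z n i) l (𝓝 zs) ∧
      Tendsto (fun n => w n i) l (𝓝 ws) ∧ ‖zs * ws‖ = κ ∧ f zs = 0 ∧ fs ws = 0 := by
    intro i
    rcases c1 l κ (fun n => z n i) (fun n => w n i) hκ (hzw i) with h | h | h
    · exact absurd (lim_zero c2 hf hf0 h (hz i) ha) hf0
    · exact absurd (lim_zero c2 hfs hfs0 h (hw i) ha) hfs0
    · obtain ⟨zs, ws, h1, h2, h3, h4, h6⟩ := h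
      exact ⟨zs, ws, h1, h2, h3, h4, h6, lim_zero c2 hf hf0 h3 (hz i) ha,
        lim_zero c2 hfs hfs0 h4 (hw i) ha⟩
  choose zs ws hzs0 hws0 hzt hwt hzw' hfz hfw using hlim
  -- the branches
  have hb := fun i => h5 f (zs i) hf ⟨0, hf0⟩ (hfz i) (hzs0 i)
  choose ηs hηs hev using hb
  let i0 : Fin K := ⟨0, hK⟩
  obtain ⟨η', hη', hev'⟩ := h5 fs (ws i0) hfs ⟨0, hfs0⟩ (hfw i0) (hws0 i0)
  have : Nonempty (Fin K) := ⟨i0⟩
  obtain ⟨i1, hi1⟩ := Finite.exists_min ηs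
  obtain ⟨η, hη, hη1, hη2⟩ : ∃ η : ℝ, 0 < η ∧ (∀ i, η ≤ ηs i) ∧ η ≤ η' :=
    ⟨min (ηs i1) η', lt_min (hηs i1) hη', fun i => (min_le_left _ _).trans (hi1 i),
      min_le_right _ _⟩
  -- one index
  have hn1 : ∀ᶠ n in (l : Filter ℕ), ∀ i, ∀ t : ℂ, ‖t‖ < ηs i → t ≠ 0 → f (z n i) ≠ 0 →
      z n i * deriv f (z n i) = t⁻¹ * f (z n i) →
      ∃ g : ℂ → ℂ, DifferentiableOn ℂ g (ball 0 (ηs i)) ∧ g 0 = zs i ∧ g t = z n i ∧
        Sol f (fun u => u⁻¹) g (PB (ηs i)) :=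
    eventually_all.mpr fun i => (hzt i).eventually (hev i)
  have hn2 := (hwt i0).eventually hev'
  have hn3 : ∀ᶠ n in (l : Filter ℕ), η⁻¹ < ‖a n‖ := ha.eventually_gt_atTop η⁻¹
  obtain ⟨n, h1, h2, h3⟩ := (hn1.and (hn2.and hn3)).exists
  have ha0 : a n ≠ 0 := (hSP n).1
  have ht1 : ‖(a n)⁻¹‖ < η := by
    rw [norm_inv]
    exact inv_lt_of_inv_lt₀ hη h3
  have ht0 : (a n)⁻¹ ≠ 0 := inv_ne_zero ha0
  have htP : (a n)⁻¹ ∈ PB η := ⟨norm_pos_iff.mpr ht0, ht1⟩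
  have hg : ∀ i, ∃ g : ℂ → ℂ, DifferentiableOn ℂ g (ball 0 (ηs i)) ∧ g 0 = zs i ∧
      g (a n)⁻¹ = z n i ∧ Sol f (fun u => u⁻¹) g (PB (ηs i)) := by
    intro i
    refine h1 i (a n)⁻¹ (ht1.trans_le (hη1 i)) ht0 (hz i n).1 ?_
    rw [inv_inv]
    exact (hz i n).2
  obtain ⟨g0, hg1, hg2, hg3, hg4⟩ := hg i0
  obtain ⟨h0, hh1, hh2, hh3, hh4⟩ := h2 (a n)⁻¹ (ht1.trans_le hη2) ht0 (hw i0 n).1 (by
    rw [inv_inv]
    exact (hw i0 n).2)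
  have hne : ∀ u ∈ PB η, u ≠ 0 := fun u hu => norm_pos_iff.mp hu.1
  refine h8 f fs K κ η (fun u => u⁻¹) (a n) (z n) (w n) (a n)⁻¹ i0 g0 h0 hf hfs hκ hη hmin
    (hSP n) ?_ ?_ ?_ htP (inv_inv _) (hg1.mono (ball_subset_ball (hη1 i0)))
    (hh1.mono (ball_subset_ball hη2)) (Sol_mono (PB_mono (hη1 i0)) hg4)
    (Sol_mono (PB_mono hη2) hh4) hg3 hh3 ?_ ?_
  · intro u hu
    exact (differentiableAt_inv (hne u hu)).differentiableWithinAt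
  · intro u hu
    exact inv_ne_zero (hne u hu)
  · intro u hu
    rw [deriv_inv]
    exact neg_ne_zero.mpr (inv_ne_zero (pow_ne_zero 2 (hne u hu)))
  · rw [hg2, hh2]
    exact hzw' i0
  · intro i
    left
    obtain ⟨g, k1, _, k3, k4⟩ := hg i
    exact ⟨g, k1.mono ((PB_sub η).trans (ball_subset_ball (hη1 i))),
      Sol_mono (PB_mono (hη1 i)) k4, k3⟩

end Pool.Agent.W73.MX
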